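import Mathlib
import Pool.Agent.Q104.Digraph

/-!
# Balanced digraphs of Laplacian spread one are regular
-/

set_option autoImplicit false

namespace Pool.Agent.Results.MP_436edf_co.SpreadOne

open Q104.Digraph

/-- **A balanced digraph of order `n ≥ 2` with Laplacian spread `1` has even order `n ≥ 4`, and it
or its complement is `(n - 2) / 2`-regular.** -/
theorem result (n : ℕ) (hn : 2 ≤ n) (A : Fin n → Fin n → Prop) [DecidableRel A]
    (h : IsBalanced A) (hsp : sp A = 1) :
    Even n ∧ 4 ≤ n ∧ (IsRegular A ((n - 2) / 2) ∨ IsRegular (Q104.Digraph.compl A) ((n - 2) / 2)) := by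
  rcases main h hn hsp.le with h0 | ⟨h1, h2, -, h3⟩
  · rw [hsp] at h0
    norm_num at h0
  · exact ⟨even_iff_two_dvd.mpr h1, h2, h3⟩

end Pool.Agent.Results.MP_436edf_co.SpreadOne
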